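import Pool.Agent.helper35.FO.Spec

/-!
# Row fo:INV (MP_a2a22c_al): invariant potentials
-/

set_option autoImplicit false

namespace Pool.Agent.FO

open Matrix Pool.Agent.H48SL Pool.Agent.UG Pool.Agent.LV

/-- Row INV. -/
theorem INV (hPOT : POT_stmt) : INV_stmt := by
  intro G E V W _ _ _ _ S T hS hT e₀ hconn hinj N hhom γ hγ
  classical
  obtain ⟨α, β, hαβ⟩ := hPOT E V W S T hinj γ
  -- the difference along a chain
  have hbal : ∀ n ∈ N, ∀ e, α (n • S e) - α (S e) = β (n • T e) - β (T e) := by
    intro n hn e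
    have h1 := hγ n hn e
    rw [hαβ, hαβ, hS, hT] at h1
    linarith
  have hconst : ∀ n ∈ N, ∀ e, α (n • S e) - α (S e) = α (n • S e₀) - α (S e₀) := by
    intro n hn e
    have h := hconn e
    induction h with
    | refl => rfl
    | @tail a b _ hab ih =>
      rcases hab with h2 | h2
      · rw [← h2]
        exact ih
      · rw [hbal n hn b, ← h2, ← hbal n hn a]
        exact ih
  have hlam : ∀ n ∈ N, α (n • S e₀) - α (S e₀) = 0 := by
    intro n hn
    have h1 := hhom (fun g => α (g • S e₀) - α (S e₀)) (by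
      intro a ha b hb
      have h2 := hconst a ha (b • e₀)
      rw [hS] at h2
      show α ((a * b) • S e₀) - α (S e₀) = (α (a • S e₀) - α (S e₀)) + (α (b • S e₀) - α (S e₀))
      rw [mul_smul]
      linarith) n hn
    exact h1
  have hα : ∀ n ∈ N, ∀ e, α (n • S e) = α (S e) := by
    intro n hn e
    have h1 := hconst n hn e
    have h2 := hlam n hn
    linarith
  have hβ : ∀ n ∈ N, ∀ e, β (n • T e) = β (T e) := by
    intro n hn e
    have h1 := hbal n hn e
    have h2 := hα n hn e
    linarith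
  refine ⟨fun v => if v ∈ Set.range S then α v else 0, fun w => if w ∈ Set.range T then β w else 0, ?_, ?_, ?_⟩
  · intro e
    show γ e = (if S e ∈ Set.range S then α (S e) else 0) - (if T e ∈ Set.range T then β (T e) else 0)
    rw [if_pos ⟨e, rfl⟩, if_pos ⟨e, rfl⟩]
    exact hαβ e
  · intro n hn v
    show (if n • v ∈ Set.range S then α (n • v) else 0) = if v ∈ Set.range S then α v else 0
    by_cases hv : v ∈ Set.range S
    · obtain ⟨e, rfl⟩ := hv
      rw [if_pos ⟨n • e, hS n e⟩, if_pos ⟨e, rfl⟩]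
      exact hα n hn e
    · rw [if_neg hv, if_neg]
      rintro ⟨e, he⟩
      apply hv
      refine ⟨n⁻¹ • e, ?_⟩
      rw [hS, he, inv_smul_smul]
  · intro n hn v
    show (if n • v ∈ Set.range T then β (n • v) else 0) = if v ∈ Set.range T then β v else 0
    by_cases hv : v ∈ Set.range T
    · obtain ⟨e, rfl⟩ := hv
      rw [if_pos ⟨n • e, hT n e⟩, if_pos ⟨e, rfl⟩]
      exact hβ n hn e
    · rw [if_neg hv, if_neg]
      rintro ⟨e, he⟩
      apply hv
      refine ⟨n⁻¹ • e, ?_⟩
      rw [hT, he, inv_smul_smul]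

end Pool.Agent.FO
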