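import Pool.Agent.helper35.FO.Spec

/-!
# Row fo:TREE (MP_a2a22c_al): a group acting on a tree with finite `p`-quotient
-/

set_option autoImplicit false

namespace Pool.Agent.FO

open Matrix Pool.Agent.H48SL Pool.Agent.UG Pool.Agent.LV
open scoped Pointwise

/-- the orbit of a subgroup -/
def TREE_o {G X : Type} [Group G] [MulAction G X] (N : Subgroup G) (x : X) : Set X := {y | ∃ n ∈ N, y = n • x}

theorem TREE_mem {G X : Type} [Group G] [MulAction G X] (N : Subgroup G) (x : X) : x ∈ TREE_o N x :=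
  ⟨1, N.one_mem, (one_smul G x).symm⟩

theorem TREE_eq {G X : Type} [Group G] [MulAction G X] {N : Subgroup G} {x y : X} (h : y ∈ TREE_o N x) :
    TREE_o N y = TREE_o N x := by
  obtain ⟨n, hn, rfl⟩ := h
  ext z
  constructor
  · rintro ⟨m, hm, rfl⟩
    exact ⟨m * n, N.mul_mem hm hn, (mul_smul m n x).symm⟩
  · rintro ⟨m, hm, rfl⟩
    exact ⟨m * n⁻¹, N.mul_mem hm (N.inv_mem hn), by rw [mul_smul, inv_smul_smul]⟩

theorem TREE_smul {G X : Type} [Group G] [MulAction G X] {N : Subgroup G} (hN : N.Normal) (g : G) (x : X) :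
    g • TREE_o N x = TREE_o N (g • x) := by
  ext z
  rw [Set.mem_smul_set]
  constructor
  · rintro ⟨_, ⟨m, hm, rfl⟩, rfl⟩
    refine ⟨g * m * g⁻¹, hN.conj_mem m hm g, ?_⟩
    rw [mul_smul, mul_smul, inv_smul_smul]
  · rintro ⟨m, hm, rfl⟩
    refine ⟨(g⁻¹ * m * g) • x, ⟨g⁻¹ * m * g, ?_, rfl⟩, ?_⟩
    · have := hN.conj_mem m hm g⁻¹
      rwa [inv_inv] at this
    · rw [← mul_smul, ← mul_smul]
      congr 1
      group

theorem TREE_map {G X Y : Type} [Group G] [MulAction G X] [MulAction G Y] (N : Subgroup G) (S : X → Y)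
    (hS : ∀ (g : G) (x : X), S (g • x) = g • S x) (x : X) : S '' TREE_o N x = TREE_o N (S x) := by
  ext z
  constructor
  · rintro ⟨_, ⟨m, hm, rfl⟩, rfl⟩
    exact ⟨m, hm, hS m x⟩
  · rintro ⟨m, hm, rfl⟩
    exact ⟨m • x, ⟨m, hm, rfl⟩, hS m x⟩

/-- action on a set of sets -/
@[reducible] def TREE_act {G X : Type} [Group G] [MulAction G X] (P : Set (Set X)) (h : ∀ (g : G) (A : Set X), A ∈ P → g • A ∈ P) : MulAction G P where
  smul g A := ⟨g • A.1, h g A.1 A.2⟩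
  one_smul A := Subtype.ext (one_smul G A.1)
  mul_smul g g' A := Subtype.ext (mul_smul g g' A.1)

/-- finite connecting sets -/
theorem TREE_fin {E V W : Type} (S : E → V) (T : E → W) (e₀ e : E)
    (h : Relation.ReflTransGen (fun a b => S a = S b ∨ T a = T b) e₀ e) :
    ∃ K : Set E, K.Finite ∧ e₀ ∈ K ∧ e ∈ K ∧ ∀ (α : V → ℚ) (β : W → ℚ), (∀ x ∈ K, α (S x) = β (T x)) →
      ∀ x ∈ K, α (S x) = α (S e₀) := by
  induction h with
  | refl =>
    refine ⟨{e₀}, Set.finite_singleton _, rfl, rfl, ?_⟩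
    rintro α β _ x rfl
    rfl
  | @tail a b _ hab ih =>
    obtain ⟨K, hK, h0, ha, hc⟩ := ih
    refine ⟨insert b K, hK.insert b, Set.mem_insert_of_mem _ h0, Set.mem_insert _ _, ?_⟩
    intro α β hαβ x hx
    have h1 := hc α β (fun x hx => hαβ x (Set.mem_insert_of_mem _ hx))
    rcases hx with rfl | hx
    · rcases hab with h2 | h2
      · rw [← h2]
        exact h1 a ha
      · rw [hαβ x (Set.mem_insert _ _), ← h2, ← hαβ a (Set.mem_insert_of_mem _ ha)]
        exact h1 a ha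
    · exact h1 x hx

/-- finitely many orbits -/
theorem TREE_finite {G X Y : Type} [Group G] [MulAction G X] [MulAction G Y] {N : Subgroup G} (hN : N.Normal) (hfi : N.FiniteIndex) (S : X → Y)
    (hS : ∀ (g : G) (x : X), S (g • x) = g • S x) (K : Set X) (hK : K.Finite) :
    {A : Set Y | ∃ g : G, ∃ x ∈ K, A = TREE_o N (S (g • x))}.Finite := by
  classical
  have : Finite (G ⧸ N) := Subgroup.finite_quotient_of_finiteIndex
  have hK' : Finite K := hK
  have h1 : {A : Set Y | ∃ g : G, ∃ x ∈ K, A = TREE_o N (S (g • x))} ⊆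
      Set.range (fun q : (G ⧸ N) × K => TREE_o N (S (q.1.out • (q.2 : X)))) := by
    rintro A ⟨g, x, hx, rfl⟩
    refine ⟨((g : G ⧸ N), ⟨x, hx⟩), ?_⟩
    show TREE_o N (S (((g : G ⧸ N)).out • x)) = TREE_o N (S (g • x))
    apply TREE_eq
    have h2 : g⁻¹ * ((g : G ⧸ N)).out ∈ N := by
      rw [← QuotientGroup.eq, QuotientGroup.out_eq']
    have h3 := hN.conj_mem _ h2 g
    refine ⟨_, h3, ?_⟩
    rw [hS, hS, ← mul_smul]
    congr 1
    group
  exact (Set.finite_range _).subset h1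

/-- Row TREE. -/
theorem TREE (hFCT : FCT_stmt) (hINV : INV_stmt) : TREE_stmt := by
  intro G E V W _ _ _ _ S T hS hT e₀ hconn hinj N hN hfi hhom p hp hpk
  classical
  have hfin : Finite (G ⧸ N) := Subgroup.finite_quotient_of_finiteIndex
  -- the finite set
  choose Kf hKfin hK0 hKe hKc using fun e => TREE_fin S T e₀ e (hconn e)
  obtain ⟨K, hKd⟩ : ∃ K : Set E, K = ⋃ q : G ⧸ N, Kf (q.out • e₀) := ⟨_, rfl⟩
  have hKF : K.Finite := by
    rw [hKd]
    exact Set.finite_iUnion fun q => hKfin _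
  have hKout : ∀ q : G ⧸ N, q.out • e₀ ∈ K := by
    intro q
    rw [hKd]
    exact Set.mem_iUnion.2 ⟨q, hKe _⟩
  have hKe0 : e₀ ∈ K := by
    rw [hKd]
    exact Set.mem_iUnion.2 ⟨((1 : G) : G ⧸ N), hK0 _⟩
  have hKcon : ∀ (α : V → ℚ) (β : W → ℚ), (∀ x ∈ K, α (S x) = β (T x)) → ∀ x ∈ K, α (S x) = α (S e₀) := by
    intro α β h x hx
    rw [hKd] at hx
    obtain ⟨q, hq⟩ := Set.mem_iUnion.1 hx
    refine hKc _ α β (fun y hy => h y ?_) x hq
    rw [hKd]
    exact Set.mem_iUnion.2 ⟨q, hy⟩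
  -- the quotient graph
  obtain ⟨PE, hPE⟩ : ∃ PE : Set (Set E), PE = {A | ∃ g : G, ∃ x ∈ K, A = TREE_o N (id (g • x))} := ⟨_, rfl⟩
  obtain ⟨PV, hPV⟩ : ∃ PV : Set (Set V), PV = {A | ∃ g : G, ∃ x ∈ K, A = TREE_o N (S (g • x))} := ⟨_, rfl⟩
  obtain ⟨PW, hPW⟩ : ∃ PW : Set (Set W), PW = {A | ∃ g : G, ∃ x ∈ K, A = TREE_o N (T (g • x))} := ⟨_, rfl⟩
  have fE : Finite PE := by
    rw [hPE]
    exact TREE_finite hN hfi id (fun _ _ => rfl) K hKF
  have fV : Finite PV := by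
    rw [hPV]
    exact TREE_finite hN hfi S hS K hKF
  have fW : Finite PW := by
    rw [hPW]
    exact TREE_finite hN hfi T hT K hKF
  have mE : ∀ (g : G) (x : E), x ∈ K → TREE_o N (g • x) ∈ PE := fun g x hx => by rw [hPE]; exact ⟨g, x, hx, rfl⟩
  have mV : ∀ (g : G) (x : E), x ∈ K → TREE_o N (S (g • x)) ∈ PV := fun g x hx => by rw [hPV]; exact ⟨g, x, hx, rfl⟩
  have mW : ∀ (g : G) (x : E), x ∈ K → TREE_o N (T (g • x)) ∈ PW := fun g x hx => by rw [hPW]; exact ⟨g, x, hx, rfl⟩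
  have rE : ∀ A ∈ PE, ∃ g : G, ∃ x ∈ K, A = TREE_o N (g • x) := fun A hA => by rw [hPE] at hA; exact hA
  have rV : ∀ A ∈ PV, ∃ g : G, ∃ x ∈ K, A = TREE_o N (S (g • x)) := fun A hA => by rw [hPV] at hA; exact hA
  have rW : ∀ A ∈ PW, ∃ g : G, ∃ x ∈ K, A = TREE_o N (T (g • x)) := fun A hA => by rw [hPW] at hA; exact hA
  have aE : ∀ (g : G) (A : Set E), A ∈ PE → g • A ∈ PE := by
    intro g A hA
    obtain ⟨g', x, hx, rfl⟩ := rE A hA
    rw [TREE_smul hN, ← mul_smul]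
    exact mE _ x hx
  have aV : ∀ (g : G) (A : Set V), A ∈ PV → g • A ∈ PV := by
    intro g A hA
    obtain ⟨g', x, hx, rfl⟩ := rV A hA
    rw [TREE_smul hN, ← hS, ← mul_smul]
    exact mV _ x hx
  have aW : ∀ (g : G) (A : Set W), A ∈ PW → g • A ∈ PW := by
    intro g A hA
    obtain ⟨g', x, hx, rfl⟩ := rW A hA
    rw [TREE_smul hN, ← hT, ← mul_smul]
    exact mW _ x hx
  let iE : MulAction G PE := TREE_act PE aE
  let iV : MulAction G PV := TREE_act PV aV
  let iW : MulAction G PW := TREE_act PW aW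
  have sE : ∀ (g : G) (A : PE), ((g • A : PE) : Set E) = g • (A : Set E) := fun _ _ => rfl
  have sV : ∀ (g : G) (A : PV), ((g • A : PV) : Set V) = g • (A : Set V) := fun _ _ => rfl
  have sW : ∀ (g : G) (A : PW), ((g • A : PW) : Set W) = g • (A : Set W) := fun _ _ => rfl
  have hS1 : ∀ A : PE, S '' (A : Set E) ∈ PV := by
    intro A
    obtain ⟨g', x, hx, h⟩ := rE A.1 A.2
    rw [h, TREE_map N S hS]
    exact mV _ x hx
  have hT1 : ∀ A : PE, T '' (A : Set E) ∈ PW := by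
    intro A
    obtain ⟨g', x, hx, h⟩ := rE A.1 A.2
    rw [h, TREE_map N T hT]
    exact mW _ x hx
  obtain ⟨S', hS'⟩ : ∃ S' : PE → PV, ∀ A, ((S' A : PV) : Set V) = S '' (A : Set E) := ⟨fun A => ⟨_, hS1 A⟩, fun _ => rfl⟩
  obtain ⟨T', hT'⟩ : ∃ T' : PE → PW, ∀ A, ((T' A : PW) : Set W) = T '' (A : Set E) := ⟨fun A => ⟨_, hT1 A⟩, fun _ => rfl⟩
  have hS'' : ∀ (g : G) (x : E) (hx : x ∈ K), S' ⟨TREE_o N (g • x), mE g x hx⟩ = ⟨TREE_o N (S (g • x)), mV g x hx⟩ := by
    intro g x hx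
    apply Subtype.ext
    rw [hS']
    exact TREE_map N S hS _
  have hT'' : ∀ (g : G) (x : E) (hx : x ∈ K), T' ⟨TREE_o N (g • x), mE g x hx⟩ = ⟨TREE_o N (T (g • x)), mW g x hx⟩ := by
    intro g x hx
    apply Subtype.ext
    rw [hT']
    exact TREE_map N T hT _
  have htriv : ∀ (n : G), n ∈ N → (∀ A : PE, n • A = A) ∧ (∀ A : PV, n • A = A) ∧ ∀ A : PW, n • A = A := by
    intro n hn
    refine ⟨fun A => ?_, fun A => ?_, fun A => ?_⟩
    · obtain ⟨g, x, hx, h⟩ := rE A.1 A.2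
      apply Subtype.ext
      rw [sE, h, TREE_smul hN]
      exact TREE_eq ⟨n, hn, rfl⟩
    · obtain ⟨g, x, hx, h⟩ := rV A.1 A.2
      apply Subtype.ext
      rw [sV, h, TREE_smul hN]
      exact TREE_eq ⟨n, hn, rfl⟩
    · obtain ⟨g, x, hx, h⟩ := rW A.1 A.2
      apply Subtype.ext
      rw [sW, h, TREE_smul hN]
      exact TREE_eq ⟨n, hn, rfl⟩
  have key := hFCT G PE PV PW S' T' (by
      intro A
      obtain ⟨g, x, hx, h⟩ := rV A.1 A.2
      exact ⟨⟨_, mE g x hx⟩, (hS'' g x hx).trans (Subtype.ext h.symm)⟩) (by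
      intro A
      obtain ⟨g, x, hx, h⟩ := rW A.1 A.2
      exact ⟨⟨_, mE g x hx⟩, (hT'' g x hx).trans (Subtype.ext h.symm)⟩) (by
      intro g A
      apply Subtype.ext
      rw [hS', sV, hS', sE]
      obtain ⟨g', x, hx, h⟩ := rE A.1 A.2
      rw [h, TREE_smul hN, TREE_map N S hS, TREE_map N S hS, TREE_smul hN, hS]) (by
      intro g A
      apply Subtype.ext
      rw [hT', sW, hT', sE]
      obtain ⟨g', x, hx, h⟩ := rE A.1 A.2
      rw [h, TREE_smul hN, TREE_map N T hT, TREE_map N T hT, TREE_smul hN, hT]) ⟨⟨_, mE 1 e₀ hKe0⟩⟩ p hp (by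
      intro g
      obtain ⟨k, hk⟩ := hpk g
      exact ⟨k, (htriv _ hk).1, (htriv _ hk).2.1, (htriv _ hk).2.2⟩) (by
      -- potentials
      intro γ
      obtain ⟨α', β', h1, h2, h3⟩ := hINV G E V W S T hS hT e₀ hconn hinj N hhom
        (fun e => if h : TREE_o N e ∈ PE then γ ⟨_, h⟩ else 0) (by
          intro n hn e
          have h4 : TREE_o N (n • e) = TREE_o N e := TREE_eq ⟨n, hn, rfl⟩
          simp only [h4])
      have nV : ∀ A : PV, ∃ v, v ∈ (A : Set V) := by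
        intro A
        obtain ⟨g, x, hx, h⟩ := rV A.1 A.2
        exact ⟨S (g • x), h ▸ TREE_mem N _⟩
      have nW : ∀ A : PW, ∃ v, v ∈ (A : Set W) := by
        intro A
        obtain ⟨g, x, hx, h⟩ := rW A.1 A.2
        exact ⟨T (g • x), h ▸ TREE_mem N _⟩
      choose cV hcV using nV
      choose cW hcW using nW
      refine ⟨fun A => α' (cV A), fun A => β' (cW A), fun A => ?_⟩
      obtain ⟨g, x, hx, h⟩ := rE A.1 A.2
      have e1 : A = ⟨TREE_o N (g • x), mE g x hx⟩ := Subtype.ext h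
      have e2 := hcV (S' A)
      have e3 := hcW (T' A)
      rw [hS', h, TREE_map N S hS] at e2
      rw [hT', h, TREE_map N T hT] at e3
      obtain ⟨n, hn, e4⟩ := e2
      obtain ⟨n', hn', e5⟩ := e3
      show γ A = α' (cV (S' A)) - β' (cW (T' A))
      rw [e4, e5, h2 n hn, h3 n' hn', ← h1 (g • x)]
      rw [dif_pos (mE g x hx), e1]) (by
      -- connectedness
      intro α β hαβ
      have hmain : ∀ (g : G) (x : E) (hx : x ∈ K), α ⟨TREE_o N (S (g • x)), mV g x hx⟩ = α ⟨TREE_o N (S (g • e₀)), mV g e₀ hKe0⟩ := by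
        intro g x hx
        have h1 := hKcon (fun v => if h : TREE_o N (g • v) ∈ PV then α ⟨_, h⟩ else 0) (fun w => if h : TREE_o N (g • w) ∈ PW then β ⟨_, h⟩ else 0) (by
          intro y hy
          have e1 : TREE_o N (g • S y) ∈ PV := by rw [← hS]; exact mV g y hy
          have e2 : TREE_o N (g • T y) ∈ PW := by rw [← hT]; exact mW g y hy
          rw [dif_pos e1, dif_pos e2]
          have e3 := hαβ ⟨_, mE g y hy⟩
          rw [hS'' g y hy, hT'' g y hy] at e3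
          have e4 : (⟨TREE_o N (g • S y), e1⟩ : PV) = ⟨TREE_o N (S (g • y)), mV g y hy⟩ := Subtype.ext (congrArg (TREE_o N) (hS g y).symm)
          have e5 : (⟨TREE_o N (g • T y), e2⟩ : PW) = ⟨TREE_o N (T (g • y)), mW g y hy⟩ := Subtype.ext (congrArg (TREE_o N) (hT g y).symm)
          rw [e4, e5]
          exact e3) x hx
        have e1 : TREE_o N (g • S x) ∈ PV := by rw [← hS]; exact mV g x hx
        have e2 : TREE_o N (g • S e₀) ∈ PV := by rw [← hS]; exact mV g e₀ hKe0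
        simp only [dif_pos e1, dif_pos e2] at h1
        have e4 : (⟨TREE_o N (g • S x), e1⟩ : PV) = ⟨TREE_o N (S (g • x)), mV g x hx⟩ := Subtype.ext (congrArg (TREE_o N) (hS g x).symm)
        have e5 : (⟨TREE_o N (g • S e₀), e2⟩ : PV) = ⟨TREE_o N (S (g • e₀)), mV g e₀ hKe0⟩ := Subtype.ext (congrArg (TREE_o N) (hS g e₀).symm)
        rw [e4, e5] at h1
        exact h1
      have hmain2 : ∀ g : G, α ⟨TREE_o N (S (g • e₀)), mV g e₀ hKe0⟩ = α ⟨TREE_o N (S ((1 : G) • e₀)), mV 1 e₀ hKe0⟩ := by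
        intro g
        have h1 := hmain 1 (((g : G ⧸ N)).out • e₀) (hKout _)
        rw [← h1]
        congr 1
        apply Subtype.ext
        show TREE_o N (S (g • e₀)) = TREE_o N (S ((1 : G) • ((g : G ⧸ N)).out • e₀))
        rw [one_smul]
        symm
        apply TREE_eq
        have h2 : g⁻¹ * ((g : G ⧸ N)).out ∈ N := by
          rw [← QuotientGroup.eq, QuotientGroup.out_eq']
        have h3 := hN.conj_mem _ h2 g
        refine ⟨_, h3, ?_⟩
        rw [hS, hS, ← mul_smul]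
        congr 1
        group
      have hmain3 : ∀ A : PE, α (S' A) = α ⟨TREE_o N (S ((1 : G) • e₀)), mV 1 e₀ hKe0⟩ := by
        intro A
        obtain ⟨g, x, hx, h⟩ := rE A.1 A.2
        have e1 : A = ⟨TREE_o N (g • x), mE g x hx⟩ := Subtype.ext h
        rw [e1, hS'' g x hx, hmain g x hx, hmain2 g]
      intro A A'
      rw [hmain3 A, hmain3 A'])
  rcases key with ⟨A, hA⟩ | ⟨A, hA⟩
  · left
    obtain ⟨g₀, x, hx, h⟩ := rV A.1 A.2
    refine ⟨g₀ • x, fun g => ?_⟩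
    have h1 := congrArg Subtype.val (hA g)
    rw [sV, h, TREE_smul hN] at h1
    have h2 : g • S (g₀ • x) ∈ TREE_o N (S (g₀ • x)) := by
      rw [← h1]
      exact TREE_mem N _
    exact h2
  · right
    obtain ⟨g₀, x, hx, h⟩ := rW A.1 A.2
    refine ⟨g₀ • x, fun g => ?_⟩
    have h1 := congrArg Subtype.val (hA g)
    rw [sW, h, TREE_smul hN] at h1
    have h2 : g • T (g₀ • x) ∈ TREE_o N (T (g₀ • x)) := by
      rw [← h1]
      exact TREE_mem N _
    exact h2

end Pool.Agent.FO
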